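import Pool.Agent.Work.MP_52820d_nt.General

/-!
# Limit points of `τ((n + ⌊f n⌋)!) / τ(n!)`

For every `f : ℕ → ℝ` tending to infinity with `f n ≤ log n` for all large `n` (in particular for
`f = log`, which is Q1), every real `x ≥ 1` is approached from above by the ratios
`τ((n + ⌊f n⌋)!) / τ(n!)` along arbitrarily large `n`.
-/

open Filter

namespace Pool.Agent.Results.MP_52820d_nt.AllSlowShifts

open Pool.Agent.Work.MP_52820d_nt in
theorem result (f : ℕ → ℝ) (hf : Tendsto f atTop atTop)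
    (hlog : ∀ᶠ n : ℕ in atTop, f n ≤ Real.log n)
    (x : ℝ) (hx : 1 ≤ x) (ε : ℝ) (hε : 0 < ε) (N : ℕ) :
    ∃ n : ℕ, N ≤ n ∧
      x < (((n + ⌊f n⌋₊).factorial.divisors.card : ℝ) / (n.factorial.divisors.card : ℝ)) ∧
      (((n + ⌊f n⌋₊).factorial.divisors.card : ℝ) / (n.factorial.divisors.card : ℝ)) < x + ε := by
  have hx0 : 0 < x + ε / 3 := by linarith
  have hl : 0 < Real.log (x + ε / 3) := Real.log_pos (by linarith)
  have h0 : 0 < Real.log (1 + ε / (3 * (x + ε / 3))) :=
    Real.log_pos (lt_add_of_pos_right _ (by positivity))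
  obtain ⟨n, hn, h1, h2⟩ := main_gen f hf hlog hl h0 N
  refine ⟨n, hn, ?_⟩
  rw [← log_ratio, ArithmeticFunction.sigma_zero_apply, ArithmeticFunction.sigma_zero_apply]
    at h1 h2
  have hs : ∀ m : ℕ, (0 : ℝ) < m.factorial.divisors.card := fun m => by
    exact_mod_cast Finset.card_pos.2 ⟨1, Nat.one_mem_divisors.2 m.factorial_ne_zero⟩
  have hF := div_pos (hs (n + ⌊f n⌋₊)) (hs n)
  have h3 := (Real.log_le_log_iff hx0 hF).1 h1
  rw [← Real.log_mul hx0.ne' (by positivity)] at h2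
  have h4 := (Real.log_le_log_iff hF (by positivity)).1 h2
  have h5 : (x + ε / 3) * (1 + ε / (3 * (x + ε / 3))) = x + ε / 3 + ε / 3 := by field_simp
  constructor <;> linarith

end Pool.Agent.Results.MP_52820d_nt.AllSlowShifts
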